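import Pool.Agent.Run7.h858.RP.D
import Pool.Agent.R225.LP.AJ
import Pool.Agent.N596.IS.A12

set_option autoImplicit false

/-!
# Isogonal polygons, and polygons with `2 m` vertices and a rotation of order `m`

1. Let `P` be an isogonal convex polygon with `N ≥ 6` vertices: all its angles are equal, and its
sides have alternately the lengths `a` and `b` (so `a = b` and `P` is regular if `N` is odd). Let `Q`
be any convex polygon with at most `N` vertices which has the same Dirichlet spectrum as `P`, up to
finitely many eigenvalues. Then `Q` is congruent to `P`. If the perimeter of `P` is less than `N + 1`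
times its shortest side (for `N = 2 m`: if the longer side is less than `1 + 1 / m` times the shorter
one), the same is true for all convex polygons `Q`, and every bounded convex domain, whatever its
boundary, with the same Dirichlet spectrum as `P` is congruent to `P`.

2. Let `P` and `Q` be convex polygons with `2 m` vertices, each of which is mapped to itself by a
rotation of order `m` (a three parameter family for each `m`). If they have the same Dirichlet
spectrum, up to finitely many eigenvalues, they are congruent. The same is true if `P` has `2 m`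
and `Q` has `2 k` vertices, `k ≥ 2 m`, with a rotation of order `k`; then this does not happen.

Main ideas. 1. The third heat invariant shows that `Q` is equiangular with `N` vertices. By the
expansion of the remainder of the heat trace for equiangular polygons (the modules behind
`EquiangularPolygons`) `Q` has at least as many sides of the length `a ≤ b` as `P` has, and no shorter
ones; as the perimeters are the same, the sum of the squares of the side lengths is at least as large
for `Q` as for `P`. But for every equiangular polygon with `N` vertices, exterior angle `θ`,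
perimeter `L` and area `A` the sum of the squares of its side lengths is at most
`(4 / tan (θ / 2)) (L ^ 2 / (2 N sin θ) - A)`, with equality only for isogonal polygons. Indeed,
isosceles triangles with base angles `θ / 2` on all sides complete it to an equiangular polygon with
`N` vertices, with the sides `(l + l') / (2 cos (θ / 2))`, where `l`, `l'` are adjacent sides, and this
is the isoperimetric inequality for that polygon (the discrete Wirtinger inequality).
2. The angle sum invariant determines the two angles, and the area and the perimeter the distances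
of the sides from the centre.
-/

open Set Filter
open Pool.Agent.W780.PG (IsConvexPolygon region)
open Pool.Agent.W703.GP (dirichletEigenvalue)
open scoped Real

namespace Pool.Agent.Results.MP_c1b9d3_an.IsogonalPolygons

/-- All angles are equal, and every side has the same length as the second next one. -/
def IsIsogonal {n : ℕ} (p : Fin (n + 3) → ℂ) : Prop :=
  (∀ i j, EuclideanGeometry.angle (p (i - 1)) (p i) (p (i + 1)) =
    EuclideanGeometry.angle (p (j - 1)) (p j) (p (j + 1))) ∧
  ∀ k, dist (p (k + 2)) (p (k + 2 + 1)) = dist (p k) (p (k + 1))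

/-- A rotation `z ↦ c + ω (z - c)`, `|ω| = 1`, maps each vertex to the second next one. For an even
number `2 m` of vertices these are the polygons which are mapped to themselves by a rotation of
order `m`, for an odd number the regular ones. -/
def IsRotational {n : ℕ} (p : Fin (n + 3) → ℂ) : Prop :=
  ∃ c ω : ℂ, ‖ω‖ = 1 ∧ ∀ i, p (i + 2) = c + ω * (p i - c)

/-- The Dirichlet eigenvalues number `k`, with multiplicity, agree for all but finitely many `k`. -/
def AlmostIsospectral (A B : Set ℂ) : Prop :=
  ∀ᶠ k in atTop, dirichletEigenvalue A k = dirichletEigenvalue B k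

/-- An isometry of the plane maps `A` to `B`. -/
def IsCongruent (A B : Set ℂ) : Prop := ∃ φ : ℂ ≃ᵢ ℂ, φ '' A = B

theorem angles {n : ℕ} {p : Fin (n + 3) → ℂ} (hp : IsConvexPolygon p) (h : IsIsogonal p)
    (j : Fin (n + 3)) :
    Pool.Agent.W780.PG.ang p j = π * ((n : ℝ) + 1) / ((n : ℝ) + 3) := by
  have hN : (0 : ℝ) < (n : ℝ) + 3 := by positivity
  obtain ⟨-, hs⟩ := Pool.Agent.Y289.HI.h_AN n p hp
  have h1 : ∀ i, π - Pool.Agent.W780.PG.ang p i = π - Pool.Agent.W780.PG.ang p j := fun i => by
    have : Pool.Agent.W780.PG.ang p i = Pool.Agent.W780.PG.ang p j := h.1 i j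
    rw [this]
  rw [Finset.sum_congr rfl fun i _ => h1 i, Finset.sum_const, Finset.card_univ, Fintype.card_fin,
    nsmul_eq_mul] at hs
  push_cast at hs
  rw [eq_div_iff hN.ne']
  linarith

theorem lengths {n : ℕ} {p : Fin (n + 3) → ℂ} (h : IsIsogonal p) (k : Fin (n + 3)) :
    Run7.h858.RP.sl p (k + 2) = Run7.h858.RP.sl p k := by
  have := h.2 k
  rw [dist_comm, dist_eq_norm, dist_comm, dist_eq_norm] at this
  exact this

/-- `IsConvexPolygon p` says that `p 0, p 1, …` are the vertices of a convex polygon, in
counterclockwise order, none of them on the segment between two others; `region p` is its interior;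
`dirichletEigenvalue` is defined by the min-max formula. `P = region p` has `N = n + 6` vertices in
the first part. -/
theorem result :
    (∀ (n : ℕ) (p : Fin (n + 3 + 3) → ℂ), IsConvexPolygon p → IsIsogonal p →
      (∀ m ≤ n + 3, ∀ q : Fin (m + 3) → ℂ, IsConvexPolygon q →
        AlmostIsospectral (region p) (region q) → IsCongruent (region p) (region q)) ∧
      ((∀ k, ∑ i, dist (p i) (p (i + 1)) < (n + 7) * dist (p k) (p (k + 1))) →
        (∀ (m : ℕ) (q : Fin (m + 3) → ℂ), IsConvexPolygon q →
          AlmostIsospectral (region p) (region q) → IsCongruent (region p) (region q)) ∧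
        ∀ D : Set ℂ, IsOpen D → Convex ℝ D → Bornology.IsBounded D → D.Nonempty →
          (∀ k, 1 ≤ k → dirichletEigenvalue (region p) k = dirichletEigenvalue D k) →
          IsCongruent (region p) D)) ∧
    ∀ (n m : ℕ) (p : Fin (n + 3) → ℂ) (q : Fin (m + 3) → ℂ), IsConvexPolygon p →
      IsConvexPolygon q → IsRotational p → IsRotational q →
      (n = m ∨ 2 * (n + 3) ≤ m + 3 ∨ 2 * (m + 3) ≤ n + 3) →
      AlmostIsospectral (region p) (region q) → IsCongruent (region p) (region q) := by
  refine ⟨fun n p hp hi => ?_, fun n m p q hp hq hrp hrq hnm h => ?_⟩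
  · have hang := fun j => angles hp hi j
    have hlen := fun k => lengths hi k
    have part1 : ∀ m ≤ n + 3, ∀ q : Fin (m + 3) → ℂ, IsConvexPolygon q →
        AlmostIsospectral (region p) (region q) → IsCongruent (region p) (region q) :=
      fun m hm q hq h => Run7.h858.RP.isogonal hp hang hlen hm hq
        (Pool.Agent.R225.LP.almost hp hq h)
    refine ⟨part1, fun hper => ?_⟩
    have part2 : ∀ (m : ℕ) (q : Fin (m + 3) → ℂ), IsConvexPolygon q →
        AlmostIsospectral (region p) (region q) → IsCongruent (region p) (region q) := by
      intro m q hq h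
      refine part1 m ?_ q hq h
      have hiso := Pool.Agent.R225.LP.almost hp hq h
      obtain ⟨h1, h2, h3⟩ := Pool.Agent.R225.LP.least_distance (n := n + 2) p q hp hq hiso
      -- the shortest side
      obtain ⟨k₀, -, hk₀⟩ := Finset.exists_min_image Finset.univ
        (fun k : Fin (n + 3 + 3) => ‖p (k + 1) - p k‖) ⟨0, Finset.mem_univ _⟩
      obtain ⟨s, hs⟩ : ∃ s : ℝ, s = ‖p (k₀ + 1) - p k₀‖ := ⟨_, rfl⟩
      have hside : ∀ k, s ≤ ‖p (k + 1) - p k‖ := fun k => hs ▸ hk₀ k (Finset.mem_univ k)
      have hs0 : 0 < s := by
        have h4 : Pool.Agent.R225.LP.sd (n := n + 1 + 1 + 1) p ≤ s :=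
          hs ▸ (Pool.Agent.R225.LP.nb (n + 2) p hp).2.1 k₀
        exact (Pool.Agent.R225.LP.nb (n + 2) p hp).1.trans_le h4
      have hE := (Pool.Agent.R225.LP.ae_thm _ p hp).1 hang
      have hsd := Pool.Agent.R225.LP.h_SM (n + 2) p hp (by omega) hE s hs0 hside
      have h5 : Pool.Agent.Y289.SQ.per p < (n + 7) * s := by
        have h6 := hper k₀
        have e1 : ∑ i, dist (p i) (p (i + 1)) = Pool.Agent.Y289.SQ.per p := by
          unfold Pool.Agent.Y289.SQ.per
          refine Finset.sum_congr rfl fun i _ => ?_
          rw [dist_comm, dist_eq_norm]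
        rw [e1, dist_comm, dist_eq_norm, ← hs] at h6
        exact h6
      have h7 : ((m : ℝ) + 3) * s < ((n : ℝ) + 7) * s := by
        have : ((m : ℝ) + 3) * s ≤ (m + 3) * Pool.Agent.R225.LP.sd p :=
          mul_le_mul_of_nonneg_left hsd (by positivity)
        linarith
      have h8 : (m : ℝ) + 3 < (n : ℝ) + 7 := lt_of_mul_lt_mul_right h7 hs0.le
      have h9 : (m : ℝ) < ((n + 4 : ℕ) : ℝ) := by push_cast; linarith
      have := Nat.cast_lt.1 h9
      omega
    refine ⟨part2, fun D hD1 hD2 hD3 hD4 hs => ?_⟩
    obtain ⟨m, q, hq, rfl⟩ := Pool.Agent.N596.IS.poly_of_iso hD1 hD2 hD3 hD4 hp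
      fun k => (hs (k + 1) (by omega)).symm
    refine part2 m q hq ?_
    filter_upwards [eventually_ge_atTop 1] with k hk
    exact hs k hk
  · exact Run7.h858.RP.rotational hp hq hrp hrq hnm (Pool.Agent.R225.LP.almost hp hq h)

end Pool.Agent.Results.MP_c1b9d3_an.IsogonalPolygons
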